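import Pool.Agent.Lib.MP_a48b5a_co.Three

set_option autoImplicit false

namespace Pool.Agent.Lib.MP_a48b5a_co.Variants.FiveQuarters

open Pool.Agent.Lib.MP_a48b5a_co

theorem result :
    ∀ (V E : Type) [Fintype V] [DecidableEq V] [Fintype E] [DecidableEq E]
      (s t : E → V),
      (∀ e : E, s e ≠ t e) →
      ((∀ S : Finset E, S.card < 6 →
          (SimpleGraph.fromRel
            (fun u v : V => ∃ e : E, e ∉ S ∧
              ((s e = u ∧ t e = v) ∨ (s e = v ∧ t e = u)))).Connected) ∨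
        ((∀ S : Finset E, S.card < 4 →
          (SimpleGraph.fromRel
            (fun u v : V => ∃ e : E, e ∉ S ∧
              ((s e = u ∧ t e = v) ∨ (s e = v ∧ t e = u)))).Connected) ∧
          ∃ R : Fin 3 → Finset E, (∀ i j, i ≠ j → Disjoint (R i) (R j)) ∧
            ∀ i, (SimpleGraph.fromRel
              (fun u v : V => ∃ e : E, e ∈ R i ∧
                ((s e = u ∧ t e = v) ∨ (s e = v ∧ t e = u)))).Connected)) →
      ∃ F₁ F₂ : Finset E,
        (∀ v : V, Even (Finset.card (Finset.filter (fun e => s e = v ∨ t e = v) F₁))) ∧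
        (∀ v : V, Even (Finset.card (Finset.filter (fun e => s e = v ∨ t e = v) F₂))) ∧
        F₁ ∪ F₂ = Finset.univ ∧
        4 * (F₁.card + F₂.card) ≤ 5 * Fintype.card E := by
  intro V E _ _ _ _ s t hl h
  have key : (∀ X : Finset V, X.Nonempty → X ≠ Finset.univ →
      4 ≤ (Finset.univ.filter (cr s t X)).card) ∧
      ∃ R : Fin 3 → Finset E, (∀ i, Cn s t (R i)) ∧ ∀ i j, i ≠ j → Disjoint (R i) (R j) := by
    rcases h with h | ⟨h, R, h1, h2⟩
    · have h6 := cut_ge_of_connected h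
      exact ⟨fun X a b => le_trans (by norm_num) (h6 X a b), trees_of_cut 3 h6⟩
    · exact ⟨cut_ge_of_connected h, R, fun i X a b => cn_of_connected (h2 i) X a b, h1⟩
  obtain ⟨h4, R, hc, hd⟩ := key
  obtain ⟨P, J, h1, h2, h3, h5⟩ := three_trees (hc 0) (hc 1) (hc 2) (hd 0 1 (by decide))
    (hd 0 2 (by decide)) (hd 1 2 (by decide)) h4 (fun _ => 1) (fun _ => zero_le_one)
  obtain ⟨F₁, F₂, a1, a2, a3, a4⟩ := cover_of_joins hl h1 h2 h3
  refine ⟨F₁, F₂, a1, a2, a3, ?_⟩
  simp only [Finset.sum_const, nsmul_eq_mul, mul_one, Finset.card_univ] at h5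
  have h6 : 4 * P.card ≤ Fintype.card E := by exact_mod_cast h5
  omega

end Pool.Agent.Lib.MP_a48b5a_co.Variants.FiveQuarters
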