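import Pool.Agent.Lib.MP_a48b5a_co.H82Girth

set_option autoImplicit false

namespace Pool.Agent.Lib.MP_a48b5a_co.Variants.FiveRegularGirth

open Pool.Agent.Lib.MP_a48b5a_co

theorem result :
    ∀ (V E : Type) [Fintype V] [DecidableEq V] [Fintype E] [DecidableEq E]
      (s t : E → V) (g : ℕ),
      (∀ e : E, s e ≠ t e) →
      (∀ S : Finset E, S.card < 4 →
        (SimpleGraph.fromRel
          (fun u v : V => ∃ e : E, e ∉ S ∧
            ((s e = u ∧ t e = v) ∨ (s e = v ∧ t e = u)))).Connected) →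
      (∀ v : V, (Finset.univ.filter (fun e => s e = v ∨ t e = v)).card = 5) →
      2 ≤ g →
      (∀ C : Finset E, C.Nonempty →
        (∀ v : V, Even (Finset.card (Finset.filter (fun e => s e = v ∨ t e = v) C))) →
        g ≤ C.card) →
      ∃ F₁ F₂ : Finset E,
        (∀ v : V, Even (Finset.card (Finset.filter (fun e => s e = v ∨ t e = v) F₁))) ∧
        (∀ v : V, Even (Finset.card (Finset.filter (fun e => s e = v ∨ t e = v) F₂))) ∧
        F₁ ∪ F₂ = Finset.univ ∧
        5 * (g + 4) * (F₁.card + F₂.card) ≤ (6 * g + 27) * Fintype.card E := by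
  intro V E _ _ _ _ s t g hl h h5 hg2 hg
  obtain ⟨P, J, h1, h2, h3, h6⟩ := H82.girth_bound hl
    (fun v => by rw [← H82.dc_eq_deg hl]; exact h5 v) hg2
    (fun C hC h0 => hg C hC fun v => even_of_bd hl (h0 v))
    (H82.two_joins (cut_ge_of_connected h))
  obtain ⟨F₁, F₂, a1, a2, a3, a4⟩ := cover_of_joins hl h1 h2 h3
  refine ⟨F₁, F₂, a1, a2, a3, ?_⟩
  rw [a4]
  nlinarith

end Pool.Agent.Lib.MP_a48b5a_co.Variants.FiveRegularGirth
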